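import Pool.Agent.H23.PL.Targets

/-!
# The cells
-/

set_option autoImplicit false

open Finset Polynomial Pool.Agent.H23.PL

namespace Pool.Agent.H67.PLD

theorem log_pos' {η : ℝ} (h : 0 < η) : 0 < Real.log (1 + η) := Real.log_pos (by linarith)

theorem cel_iff {η : ℝ} (h : 0 < η) {q : ℕ} (hq : 1 ≤ q) (a : ℕ) :
    cel η q = a ↔ (1 + η) ^ a ≤ q ∧ (q : ℝ) < (1 + η) ^ (a + 1) := by
  have hl := log_pos' h
  have hq0 : (0 : ℝ) < q := by exact_mod_cast hq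
  have h0 : 0 ≤ Real.log q / Real.log (1 + η) := div_nonneg (Real.log_natCast_nonneg q) hl.le
  have h1 : (0 : ℝ) < 1 + η := by linarith
  unfold cel
  rw [Nat.floor_eq_iff h0, le_div_iff₀ hl, div_lt_iff₀ hl]
  have e1 : (a : ℝ) * Real.log (1 + η) = Real.log ((1 + η) ^ a) := by rw [Real.log_pow]
  have e2 : ((a : ℝ) + 1) * Real.log (1 + η) = Real.log ((1 + η) ^ (a + 1)) := by
    rw [Real.log_pow]
    push_cast
    ring
  rw [e1, e2, Real.log_le_log_iff (by positivity) hq0, Real.log_lt_log_iff hq0 (by positivity)]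

theorem mem_Cl {η : ℝ} (h : 0 < η) {a q : ℕ} :
    q ∈ Cl η a ↔ 1 ≤ q ∧ (1 + η) ^ a ≤ q ∧ (q : ℝ) < (1 + η) ^ (a + 1) := by
  unfold Cl
  rw [mem_filter, mem_Icc]
  constructor
  · rintro ⟨⟨h1, -⟩, h2⟩
    exact ⟨h1, (cel_iff h h1 a).1 h2⟩
  · rintro ⟨h1, h2⟩
    exact ⟨⟨h1, Nat.le_floor h2.2.le⟩, (cel_iff h h1 a).2 h2⟩

theorem pf_CEL : T_CEL := by
  intro η hη hη1
  have hp : (0 : ℝ) < 1 + η := by linarith
  refine ⟨fun q hq => (mem_Cl hη).2 ⟨hq, (cel_iff hη hq _).1 rfl⟩, ?_, ?_⟩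
  · intro a q q' hq hq'
    obtain ⟨-, h1, -⟩ := (mem_Cl hη).1 hq
    obtain ⟨-, -, h2⟩ := (mem_Cl hη).1 hq'
    rw [pow_succ] at h2
    exact h2.trans_le (mul_le_mul_of_nonneg_right h1 hp.le)
  · intro a q hq
    obtain ⟨-, -, h1⟩ := (mem_Cl hη).1 hq
    obtain ⟨A, hA⟩ : ∃ A : ℝ, A = (1 + η) ^ a := ⟨_, rfl⟩
    have hA1 : 1 ≤ A := by
      rw [hA]
      exact one_le_pow₀ (by linarith)
    have hsub : Ico ⌈A⌉₊ ⌈A * (1 + η)⌉₊ ⊆ Cl η a := by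
      intro n hn
      rw [mem_Ico] at hn
      have h2 : A ≤ n := Nat.ceil_le.1 hn.1
      have h3 : (n : ℝ) < A * (1 + η) := Nat.lt_ceil.1 hn.2
      rw [mem_Cl hη, pow_succ, ← hA]
      refine ⟨?_, h2, h3⟩
      have : (1 : ℝ) ≤ n := hA1.trans h2
      exact_mod_cast this
    have hcard := card_le_card hsub
    rw [Nat.card_Ico] at hcard
    have h4 : (⌈A * (1 + η)⌉₊ : ℝ) ≤ ((Cl η a).card : ℝ) + ⌈A⌉₊ := by
      have : ⌈A * (1 + η)⌉₊ ≤ (Cl η a).card + ⌈A⌉₊ := by omega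
      exact_mod_cast this
    have h5 : A * (1 + η) ≤ ⌈A * (1 + η)⌉₊ := Nat.le_ceil _
    have h6 : (⌈A⌉₊ : ℝ) < A + 1 := Nat.ceil_lt_add_one (by linarith)
    rw [pow_succ, ← hA] at h1
    have h7 : (q : ℝ) ≤ 2 * A := by nlinarith
    nlinarith

end Pool.Agent.H67.PLD
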